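import Pool.Agent.H41.CUBE.TStmts

/-!
# Cube project (MP_47888e_al), block TAME, module FDQ: the Frobenius data over `O / p ^ M`
-/

set_option autoImplicit false

open Finset MvPolynomial Pool.CM

namespace Pool.CUBE

namespace FDQ

theorem map_cD {σ R S : Type} [CommRing R] [CommRing S] (f : R →+* S) (δ : Derivation ℤ R R)
    (δ' : Derivation ℤ S S) (h : ∀ x, f (δ x) = δ' (f x)) (g : MvPolynomial σ R) :
    map f (cD δ g) = cD δ' (map f g) := by
  induction g using MvPolynomial.induction_on' with
  | add g1 g2 h1 h2 => rw [map_add, map_add, map_add, map_add, h1, h2]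
  | monomial a s => rw [cD_monomial, map_monomial, map_monomial, cD_monomial, h]

section
variable {X : Idx} {E : Type} [Field E] (A : PF X E)

theorem exists_lift {n : ℕ} (i : X.I) (g : Poly n E) (h : CInt A i g) :
    ∃ g' : Poly n (A.O i), map (A.O i).subtype g' = g := by
  refine ⟨∑ a ∈ g.support, monomial a ⟨coeff a g, h a⟩, ?_⟩
  rw [map_sum]
  conv_rhs => rw [g.as_sum]
  refine sum_congr rfl fun a _ => ?_
  rw [map_monomial]
  rfl

theorem pmap_inj {n : ℕ} (i : X.I) {g h : Poly n (A.O i)}
    (e : map (A.O i).subtype g = map (A.O i).subtype h) : g = h :=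
  map_injective _ Subtype.val_injective e

/-- the derivation on the valuation ring -/
noncomputable def dO (hA : A.Ax) (i : X.I) (j : A.J) : Derivation ℤ (A.O i) (A.O i) :=
  Derivation.mk'
    (AddMonoidHom.toIntLinearMap
      { toFun := fun x => ⟨A.D j x, hA.D_O i j x x.2⟩
        map_zero' := Subtype.ext (map_zero (A.D j))
        map_add' := fun x y => Subtype.ext (map_add (A.D j) (x : E) (y : E)) })
    (fun x y => Subtype.ext (by
      change A.D j ((x : E) * (y : E)) = (x : E) * A.D j (y : E) + (y : E) * A.D j (x : E)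
      rw [Derivation.leibniz, smul_eq_mul, smul_eq_mul]))

theorem dO_apply (hA : A.Ax) (i : X.I) (j : A.J) (x : A.O i) :
    ((dO A hA i j x : A.O i) : E) = A.D j (x : E) := rfl

/-- the ideal `p ^ M` -/
abbrev IM (i : X.I) (M : ℕ) : Ideal (A.O i) := Ideal.span {((X.p i : ℕ) : A.O i) ^ M}

theorem dO_mem (hA : A.Ax) (i : X.I) (j : A.J) (M : ℕ) (x : A.O i) (hx : x ∈ IM A i M) :
    dO A hA i j x ∈ IM A i M := by
  rw [IM, Ideal.mem_span_singleton] at hx ⊢
  obtain ⟨y, rfl⟩ := hx
  refine ⟨dO A hA i j y, ?_⟩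
  rw [Derivation.leibniz, Derivation.leibniz_pow, Derivation.map_natCast]
  simp

/-- the derivation on `O / p ^ M` -/
noncomputable def dQ (hA : A.Ax) (i : X.I) (j : A.J) (M : ℕ) :
    Derivation ℤ (Ob A i M) (Ob A i M) :=
  Derivation.mk'
    (AddMonoidHom.toIntLinearMap
      (QuotientAddGroup.map (IM A i M).toAddSubgroup (IM A i M).toAddSubgroup
        ((dO A hA i j : A.O i →+ A.O i)) (fun x hx => dO_mem A hA i j M x hx)))
    (fun x y => by
      obtain ⟨x, rfl⟩ := Ideal.Quotient.mk_surjective x
      obtain ⟨y, rfl⟩ := Ideal.Quotient.mk_surjective y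
      change Ideal.Quotient.mk (IM A i M) (dO A hA i j (x * y)) =
        Ideal.Quotient.mk (IM A i M) x * Ideal.Quotient.mk (IM A i M) (dO A hA i j y) +
        Ideal.Quotient.mk (IM A i M) y * Ideal.Quotient.mk (IM A i M) (dO A hA i j x)
      rw [Derivation.leibniz, smul_eq_mul, smul_eq_mul, map_add, map_mul, map_mul])

theorem dQ_mk (hA : A.Ax) (i : X.I) (j : A.J) (M : ℕ) (x : A.O i) :
    dQ A hA i j M (Ideal.Quotient.mk _ x) = Ideal.Quotient.mk _ (dO A hA i j x) := rfl

end

end FDQ

open FDQ in
theorem FDQ_proof (hEEF : EEFStmt) (hGAM : GAMStmt) : FDQStmt := by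
  intro X E _ _ A hA n D M hD hM
  have hDE : ((D : ℕ) : E) ≠ 0 := by
    rw [Nat.cast_ne_zero]; omega
  refine ((hGAM X E A hA n M hM).and (hA.pf2 (D : E) hDE)).mono ?_
  rintro i ⟨⟨g1, g2, -⟩, -, hD1, hD2⟩ P hP hPi
  obtain ⟨e1, e2, e3, e4, e5, -⟩ := hEEF X E A hA i n D P hP hPi
  have hprime := X.hp i
  set p := X.p i with hp
  have hφP : CInt A i (map (A.phi i) P) := fun a => by
    rw [coeff_map]; exact hA.phi_O i _ (hPi a)
  obtain ⟨P0, hP0⟩ := exists_lift A i P hPi
  obtain ⟨P1, hP1⟩ := exists_lift A i _ hφP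
  obtain ⟨E0, hE0⟩ := exists_lift A i _ e2
  let q : A.O i →+* Ob A i M := Ideal.Quotient.mk _
  have hsub : ∀ k : ℕ, (A.O i).subtype (k : A.O i) = (k : E) := fun k => map_natCast _ k
  have hPh : P0.IsHomogeneous D :=
    IsHomogeneous.of_map (f := (A.O i).subtype) Subtype.val_injective (by rw [hP0]; exact hP)
  have hP1h : P1.IsHomogeneous D :=
    IsHomogeneous.of_map (f := (A.O i).subtype) Subtype.val_injective
      (by rw [hP1]; exact hP.map _)
  have hE0h : E0.IsHomogeneous (p * D) :=
    IsHomogeneous.of_map (f := (A.O i).subtype) Subtype.val_injective (by rw [hE0]; exact e1)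
  -- the identities over `O`
  have i1 : P0 ^ p = expand p P1 + ((p : ℕ) : Poly n (A.O i)) * E0 := by
    apply pmap_inj
    rw [map_pow, map_add, RingHom.map_mul, map_expand, hP0, hP1, hE0, e3, map_natCast]
  have i2 : ∀ k, P0 ^ (p - 1) * pderiv k P0 =
      MvPolynomial.X k ^ (p - 1) * expand p (pderiv k P1) + pderiv k E0 := by
    intro k
    apply pmap_inj
    have h1 : P ^ (p - 1) * pderiv k P = MvPolynomial.X k ^ (p - 1) *
        expand p (pderiv k (map (A.phi i) P)) + pderiv k (EE p (A.phi i) P) := by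
      have hX : (MvPolynomial.X k : Poly n E) ≠ 0 := X_ne_zero k
      refine mul_left_cancel₀ hX ?_
      have h2 := e4 k
      have h3 : ∀ g : Poly n E, ez k g = MvPolynomial.X k * pderiv k g := fun g => rfl
      rw [h3, h3, h3, map_mul, expand_X] at h2
      have h4 : (MvPolynomial.X k : Poly n E) * MvPolynomial.X k ^ (p - 1) =
          MvPolynomial.X k ^ p := by
        rw [← pow_succ', Nat.sub_add_cancel hprime.pos]
      calc (MvPolynomial.X k : Poly n E) * (P ^ (p - 1) * pderiv k P)
          = P ^ (p - 1) * (MvPolynomial.X k * pderiv k P) := by ring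
        _ = _ := by rw [h2, ← h4]; ring
    rw [RingHom.map_mul, map_pow, map_add, RingHom.map_mul, map_pow, map_X, map_expand,
      ← pderiv_map, ← pderiv_map, ← pderiv_map, hP0, hP1, hE0, h1]
  -- the quotient map on polynomials
  have hq : ∀ {g h : Poly n (A.O i)}, g = h → map q g = map q h := fun e => by rw [e]
  let γ : ℕ → A.O i := fun j => ⟨gam E p j, g1 j⟩
  have hfac : ∀ j : ℕ, ((j.factorial : ℕ) : E) ≠ 0 := fun j =>
    Nat.cast_ne_zero.2 (Nat.factorial_ne_zero j)
  have γ0 : γ 0 = 1 := Subtype.ext (by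
    change (p : E) ^ 0 / ((0).factorial : E) = 1
    simp)
  have γs : ∀ j, ((j + 1 : ℕ) : A.O i) * γ (j + 1) = (p : A.O i) * γ j := fun j =>
    Subtype.ext (by
      change (A.O i).subtype (((j + 1 : ℕ) : A.O i) * γ (j + 1)) =
        (A.O i).subtype ((p : A.O i) * γ j)
      rw [RingHom.map_mul, RingHom.map_mul, hsub, hsub]
      change ((j + 1 : ℕ) : E) * ((p : E) ^ (j + 1) / ((j + 1).factorial : E)) =
        (p : E) * ((p : E) ^ j / (j.factorial : E))
      have h1 : ((j + 1 : ℕ) : E) ≠ 0 := Nat.cast_ne_zero.2 (Nat.succ_ne_zero j)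
      have h2 := hfac j
      rw [Nat.factorial_succ, Nat.cast_mul]
      field_simp
      rw [pow_succ'])
  have γmul : ∀ a b, γ a * γ b = ((a + b).choose a : A.O i) * γ (a + b) := fun a b =>
    Subtype.ext (by
      change (A.O i).subtype (γ a * γ b) =
        (A.O i).subtype (((a + b).choose a : A.O i) * γ (a + b))
      rw [RingHom.map_mul, RingHom.map_mul, hsub]
      change ((p : E) ^ a / (a.factorial : E)) * ((p : E) ^ b / (b.factorial : E)) =
        (((a + b).choose a : ℕ) : E) * ((p : E) ^ (a + b) / ((a + b).factorial : E))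
      have h1 := hfac a
      have h2 := hfac b
      have h3 := hfac (a + b)
      have h4 : (((a + b).choose a : ℕ) : E) * (a.factorial : E) * (b.factorial : E) =
          ((a + b).factorial : E) := by
        have := Nat.choose_mul_factorial_mul_factorial (Nat.le_add_right a b)
        rw [Nat.add_sub_cancel_left] at this
        rw [← this]
        push_cast
        ring
      rw [← h4]
      have h5 : (((a + b).choose a : ℕ) : E) ≠ 0 :=
        Nat.cast_ne_zero.2 (Nat.choose_pos (Nat.le_add_right a b)).ne'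
      field_simp
      rw [pow_add])
  have γJ : ∀ j, M ≤ j → q (γ j) = 0 := by
    intro j hj
    obtain ⟨y, hy, e⟩ := g2 j hj
    change Ideal.Quotient.mk _ (γ j) = 0
    rw [Ideal.Quotient.eq_zero_iff_mem, Ideal.mem_span_singleton]
    refine ⟨⟨y, hy⟩, Subtype.ext ?_⟩
    change gam E p j = (A.O i).subtype (((X.p i : ℕ) : A.O i) ^ M * ⟨y, hy⟩)
    rw [RingHom.map_mul, map_pow, hsub]
    exact e
  have hDu : IsUnit ((D : ℕ) : Ob A i M) := by
    have h1 : ((D : ℕ) : A.O i) * (⟨(D : E)⁻¹, hD2⟩ : A.O i) = 1 := Subtype.ext (by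
      change (A.O i).subtype (((D : ℕ) : A.O i) * (⟨(D : E)⁻¹, hD2⟩ : A.O i)) = 1
      rw [RingHom.map_mul, hsub]
      exact mul_inv_cancel₀ hDE)
    have h2 := congrArg q h1
    rw [map_mul, map_one, map_natCast] at h2
    exact IsUnit.of_mul_eq_one _ h2
  let F : FD n (Ob A i M) :=
    { p := p
      D := D
      J := M
      P := map q P0
      P' := map q P1
      E := map q E0
      γ := fun j => q (γ j)
      hp := hprime.two_le
      hD := hDu
      hP := hPh.map _
      hP' := hP1h.map _
      hPE := by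
        have := hq i1
        rw [map_pow, map_add, RingHom.map_mul, map_expand, map_natCast] at this
        exact this
      hPd := fun k => by
        have := hq (i2 k)
        rw [RingHom.map_mul, map_pow, map_add, RingHom.map_mul, map_pow, map_X, map_expand,
          ← pderiv_map, ← pderiv_map, ← pderiv_map] at this
        exact this
      γ0 := by rw [γ0, map_one]
      γs := fun j => by
        have := congrArg q (γs j)
        rw [map_mul, map_mul, map_natCast, map_natCast] at this
        exact this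
      γJ := γJ
      γmul := fun a b => by
        have := congrArg q (γmul a b)
        rw [map_mul, map_mul, map_natCast] at this
        exact this }
  refine ⟨F, rfl, rfl, rfl, ⟨P0, hP0, rfl⟩, ⟨P1, hP1, rfl⟩, ⟨E0, hE0, rfl⟩, hE0h.map _,
    fun j => ⟨γ j, rfl, rfl⟩, ?_⟩
  intro j
  refine ⟨dQ A hA i j M, ⟨?_, ?_⟩, ?_⟩
  · -- `γ` is horizontal
    intro k
    change dQ A hA i j M (Ideal.Quotient.mk _ (γ k)) = 0
    have h1 : dO A hA i j (γ k) = 0 := Subtype.ext (by
      rw [dO_apply]
      change A.D j ((p : E) ^ k / (k.factorial : E)) = 0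
      rw [Derivation.leibniz_div, Derivation.leibniz_pow, Derivation.map_natCast,
        Derivation.map_natCast]
      simp)
    rw [dQ_mk, h1, map_zero]
  · -- the polynomial `Q`
    obtain ⟨c1, c2⟩ := e5 j
    have hcP : CInt A i (map (A.phi i) (cD (A.D j) P)) := fun a => by
      rw [coeff_map]
      refine hA.phi_O i _ ?_
      exact hA.D_O i j _ (hPi a)
    obtain ⟨Q0, hQ0⟩ := exists_lift A i _ hcP
    have hcPh : (cD (A.D j) P).IsHomogeneous D := by
      rw [P.as_sum, map_sum]
      refine IsHomogeneous.sum _ _ _ fun m hm => ?_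
      rw [cD_monomial]
      exact isHomogeneous_monomial _ (hP.degree_eq_sum_deg_support hm ▸ rfl)
    have hQh : Q0.IsHomogeneous D :=
      IsHomogeneous.of_map (f := (A.O i).subtype) Subtype.val_injective
        (by rw [hQ0]; exact hcPh.map _)
    have hs : ∀ g : Poly n (A.O i), map (A.O i).subtype (cD (dO A hA i j) g) =
        cD (A.D j) (map (A.O i).subtype g) := fun g =>
      map_cD (A.O i).subtype (dO A hA i j) (A.D j) (fun x => rfl) g
    have hqd : ∀ g : Poly n (A.O i), map q (cD (dO A hA i j) g) =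
        cD (dQ A hA i j M) (map q g) := fun g =>
      map_cD q (dO A hA i j) (dQ A hA i j M) (fun x => rfl) g
    have j1 : P0 ^ (p - 1) * cD (dO A hA i j) P0 = expand p Q0 + cD (dO A hA i j) E0 := by
      apply pmap_inj
      rw [RingHom.map_mul, map_pow, map_add, map_expand, hs, hs, hP0, hQ0, hE0, c1]
    have j2 : cD (dO A hA i j) P1 = ((p : ℕ) : Poly n (A.O i)) * Q0 := by
      apply pmap_inj
      rw [RingHom.map_mul, hs, hP1, hQ0, c2, map_natCast, ← C_mul', map_natCast]
    refine ⟨map q Q0, hQh.map _, ?_, ?_⟩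
    · have := hq j1
      rw [RingHom.map_mul, map_pow, map_add, map_expand, hqd, hqd] at this
      exact this
    · have := hq j2
      rw [RingHom.map_mul, hqd, map_natCast] at this
      change cD (dQ A hA i j M) (map q P1) = ((p : ℕ) : Ob A i M) • map q Q0
      rw [this, ← C_mul', map_natCast]
  · intro x y hxy
    rw [dQ_mk]
    congr 1
    exact Subtype.ext hxy

end Pool.CUBE
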