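import Pool.Agent.H41.CUBE.TStmts

/-!
# Cube project (MP_47888e_al), block TAME, module RHB: elementary properties of `rho0`
-/

set_option autoImplicit false

open Finset MvPolynomial Pool.CM

namespace Pool.CUBE

namespace RHB

section
variable {n : ℕ} {A : Type} [CommRing A]

theorem lev_of_wt {N : ℕ} {g : Poly n A} (h : Wt N g) : lev N g = g := by
  classical
  conv_lhs => rw [g.as_sum]
  conv_rhs => rw [g.as_sum]
  rw [map_sum]
  refine sum_congr rfl fun a ha => ?_
  rw [lev_monomial, if_pos (h a (mem_support_iff.1 ha))]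

theorem wt_mul {N D : ℕ} {g P : Poly n A} (hg : Wt N g) (hP : P.IsHomogeneous D) :
    Wt (N + D) (g * P) := by
  classical
  intro a ha
  rw [coeff_mul] at ha
  obtain ⟨x, hx, hx0⟩ := Finset.exists_ne_zero_of_sum_ne_zero ha
  have h1 := left_ne_zero_of_mul hx0
  have h2 := right_ne_zero_of_mul hx0
  rw [Finset.HasAntidiagonal.mem_antidiagonal] at hx
  have h3 := hg _ h1
  have h4 : x.2.degree = D := by
    have := hP h2
    rwa [Finsupp.degree_eq_weight_one]
  rw [← hx, map_add, h4]
  omega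

theorem wt_monomial {N : ℕ} {a : Fin (n + 1) →₀ ℕ} (h : a.degree + (n + 1) = N) (r : A) :
    Wt N (monomial a r : Poly n A) := by
  classical
  intro b hb
  rw [coeff_monomial] at hb
  split_ifs at hb with h1
  · rw [← h1, h]
  · exact absurd rfl hb

/-- the exponent `p (b + 1) - 1` -/
noncomputable def upp (p : ℕ) (b : Fin (n + 1) →₀ ℕ) : Fin (n + 1) →₀ ℕ :=
  Finsupp.equivFunOnFinite.symm fun i => p * (b i + 1) - 1

theorem upp_apply (p : ℕ) (b : Fin (n + 1) →₀ ℕ) (i : Fin (n + 1)) :
    upp p b i = p * (b i + 1) - 1 := rfl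

theorem eq_upp {p : ℕ} (hp : 0 < p) (a b : Fin (n + 1) →₀ ℕ) :
    a = upp p b ↔ (∀ i, p ∣ a i + 1) ∧ dsh p a = b := by
  constructor
  · rintro rfl
    have h : ∀ i, upp p b i + 1 = p * (b i + 1) := by
      intro i
      rw [upp_apply]
      have : 0 < p * (b i + 1) := Nat.mul_pos hp (Nat.succ_pos _)
      omega
    refine ⟨fun i => ⟨b i + 1, h i⟩, ?_⟩
    ext i
    rw [dsh_apply, h, Nat.mul_div_cancel_left _ hp, Nat.add_sub_cancel]
  · rintro ⟨h, rfl⟩
    ext i
    rw [upp_apply, dsh_apply]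
    have h1 : 1 ≤ (a i + 1) / p := by
      have := Nat.le_of_dvd (Nat.succ_pos _) (h i)
      exact (Nat.one_le_div_iff hp).2 this
    rw [Nat.sub_add_cancel h1, Nat.mul_div_cancel' (h i), Nat.add_sub_cancel]

theorem coeff_psi {p : ℕ} (hp : 0 < p) (b : Fin (n + 1) →₀ ℕ) (g : Poly n A) :
    coeff b (psi p g) = coeff (upp p b) g := by
  classical
  induction g using MvPolynomial.induction_on' with
  | add g1 g2 h1 h2 => rw [map_add, coeff_add, coeff_add, h1, h2]
  | monomial a s =>
    rw [psi_monomial, coeff_monomial]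
    by_cases h : a = upp p b
    · have h' := (eq_upp hp a b).1 h
      rw [if_pos h, if_pos h'.1, coeff_monomial, if_pos h'.2]
    · rw [if_neg h]
      by_cases h1 : ∀ i, p ∣ a i + 1
      · rw [if_pos h1, coeff_monomial, if_neg]
        intro h2
        exact h ((eq_upp hp a b).2 ⟨h1, h2⟩)
      · rw [if_neg h1, coeff_zero]

theorem degree_upp {p : ℕ} (hp : 0 < p) (b : Fin (n + 1) →₀ ℕ) :
    (upp p b).degree + (n + 1) = p * (b.degree + (n + 1)) := by
  have e1 : ∀ a : Fin (n + 1) →₀ ℕ, a.degree + (n + 1) = ∑ i, (a i + 1) := by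
    intro a
    rw [Finset.sum_add_distrib, Finsupp.degree_eq_sum]
    simp
  rw [e1, e1, Finset.mul_sum]
  refine Finset.sum_congr rfl fun i _ => ?_
  rw [upp_apply]
  have : 0 < p * (b i + 1) := Nat.mul_pos hp (Nat.succ_pos _)
  omega

theorem wt_psi {p : ℕ} (hp : 0 < p) {N : ℕ} {g : Poly n A} (h : Wt (p * N) g) :
    Wt N (psi p g) := by
  intro b hb
  rw [coeff_psi hp] at hb
  have h1 := h _ hb
  rw [degree_upp hp] at h1
  exact Nat.eq_of_mul_eq_mul_left hp h1

theorem map_psi {B : Type} [CommRing B] (f : A →+* B) {p : ℕ} (hp : 0 < p) (g : Poly n A) :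
    map f (psi p g) = psi p (map f g) := by
  ext b
  rw [coeff_map, coeff_psi hp, coeff_psi hp, coeff_map]

/-- the term of `rho0` before `psi` -/
theorem term_wt {D p m t j : ℕ} {a : Fin (n + 1) →₀ ℕ} {P E : Poly n A}
    (ha : a.degree + (n + 1) = D * m) (hm : m ≤ p * t) (hP : P.IsHomogeneous D)
    (hE : E.IsHomogeneous (p * D)) (r : A) :
    Wt (p * (D * (t + j))) (monomial a r * P ^ (p * t - m) * E ^ j) := by
  have h1 := wt_mul (wt_mul (wt_monomial ha r) (hP.pow (p * t - m))) (hE.pow j)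
  have e : D * m + D * (p * t - m) + p * D * j = p * (D * (t + j)) := by
    obtain ⟨s, hs⟩ := Nat.exists_eq_add_of_le hm
    rw [hs, Nat.add_sub_cancel_left]
    have : p * (D * (t + j)) = D * (p * t) + p * D * j := by ring
    rw [this, hs]
    ring
  rwa [e] at h1

theorem rho0_monomial (p D J : ℕ) (γ : ℕ → A) (P E : Poly n A) (a : Fin (n + 1) →₀ ℕ) (r : A) :
    rho0 p D J γ P E (monomial a r) = r • if D ∣ a.degree + (n + 1) then
    ((FD.K ((a.degree + (n + 1)) / D) (((a.degree + (n + 1)) / D + p - 1) / p) : ℕ) : A) •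
      ∑ j ∈ range J, ((-1) ^ j * γ j) •
        psi p (monomial a 1 *
          P ^ (p * (((a.degree + (n + 1)) / D + p - 1) / p) - (a.degree + (n + 1)) / D) * E ^ j)
    else 0 := linMon_monomial _ _ _

theorem t_spec {p m : ℕ} (hp : 2 ≤ p) :
    m ≤ p * ((m + p - 1) / p) := by
  have hp0 : 0 < p := by omega
  have := Nat.lt_mul_div_succ (m + p - 1) hp0
  rw [mul_add, mul_one] at this
  omega

theorem t_pos {p m : ℕ} (hp : 2 ≤ p) (hm : 1 ≤ m) : 1 ≤ (m + p - 1) / p := by
  have hp0 : 0 < p := by omega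
  rw [Nat.one_le_div_iff hp0]; omega

theorem m_pos {D m : ℕ} {a : Fin (n + 1) →₀ ℕ} (h : a.degree + (n + 1) = D * m) : 1 ≤ m := by
  rcases Nat.eq_zero_or_pos m with h0 | h0
  · rw [h0, mul_zero] at h; omega
  · exact h0

/-! closure properties -/

theorem wtD_zero (D : ℕ) : WtD D (0 : Poly n A) := fun a ha => absurd (coeff_zero a) ha

theorem wtD_add {D : ℕ} {g h : Poly n A} (hg : WtD D g) (hh : WtD D h) : WtD D (g + h) := by
  intro a ha
  rw [coeff_add] at ha
  by_cases h0 : coeff a g = 0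
  · rw [h0, zero_add] at ha
    exact hh a ha
  · exact hg a h0

theorem wtD_smul {D : ℕ} (c : A) {g : Poly n A} (hg : WtD D g) : WtD D (c • g) := by
  intro a ha
  rw [coeff_smul, smul_eq_mul] at ha
  exact hg a (right_ne_zero_of_mul ha)

theorem wtD_sum {D : ℕ} {ι : Type} (s : Finset ι) (f : ι → Poly n A)
    (h : ∀ i ∈ s, WtD D (f i)) : WtD D (∑ i ∈ s, f i) := by
  classical
  induction s using Finset.induction_on with
  | empty => rw [sum_empty]; exact wtD_zero D
  | insert i s hi ih =>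
    rw [sum_insert hi]
    exact wtD_add (h i (mem_insert_self _ _)) (ih fun j hj => h j (mem_insert_of_mem hj))

theorem wtD_of_wt {D N : ℕ} {g : Poly n A} (h : Wt (D * N) g) : WtD D g := fun a ha =>
  ⟨N, h a ha⟩

variable {G : AddSubgroup A}

theorem coefIn_zero : CoefIn G (0 : Poly n A) := fun a => by
  rw [coeff_zero]; exact G.zero_mem

theorem coefIn_add {g h : Poly n A} (hg : CoefIn G g) (hh : CoefIn G h) : CoefIn G (g + h) :=
  fun a => by rw [coeff_add]; exact G.add_mem (hg a) (hh a)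

theorem coefIn_sum {ι : Type} (s : Finset ι) (f : ι → Poly n A)
    (h : ∀ i ∈ s, CoefIn G (f i)) : CoefIn G (∑ i ∈ s, f i) := fun a => by
  rw [coeff_sum]; exact G.sum_mem fun i hi => h i hi a

theorem coefIn_psi {p : ℕ} (hp : 0 < p) {g : Poly n A} (h : CoefIn G g) : CoefIn G (psi p g) :=
  fun b => by rw [coeff_psi hp]; exact h _

theorem coefIn_mono {G' : AddSubgroup A} (h : G ≤ G') {g : Poly n A} (hg : CoefIn G g) :
    CoefIn G' g := fun a => h (hg a)

variable {S : ℕ → AddSubgroup A}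

theorem coefIn_mul (hS : Filt S) {a b : ℕ} {f g : Poly n A} (hf : CoefIn (S a) f)
    (hg : CoefIn (S b) g) : CoefIn (S (a + b)) (f * g) := by
  classical
  intro m
  rw [coeff_mul]
  exact (S (a + b)).sum_mem fun x _ => hS.mul a b _ _ (hf _) (hg _)

theorem coefIn_monomial (hS : Filt S) (a : Fin (n + 1) →₀ ℕ) :
    CoefIn (S 0) (monomial a 1 : Poly n A) := by
  classical
  intro b
  rw [coeff_monomial]
  split_ifs
  · exact hS.one
  · exact (S 0).zero_mem

theorem coefIn_pow (hS : Filt S) {a : ℕ} {f : Poly n A} (hf : CoefIn (S a) f) (j : ℕ) :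
    CoefIn (S (j * a)) (f ^ j) := by
  induction j with
  | zero =>
    rw [pow_zero, Nat.zero_mul]
    exact coefIn_monomial hS 0
  | succ j ih =>
    rw [pow_succ]
    have e : (j + 1) * a = j * a + a := by ring
    rw [e]
    exact coefIn_mul hS ih hf

theorem coefIn_smul (hS : Filt S) {a b : ℕ} {c : A} (hc : c ∈ S a) {g : Poly n A}
    (hg : CoefIn (S b) g) : CoefIn (S (a + b)) (c • g) := fun m => by
  rw [coeff_smul, smul_eq_mul]
  exact hS.mul a b _ _ hc (hg m)

theorem natCast_mem (hS : Filt S) (k : ℕ) : ((k : ℕ) : A) ∈ S 0 := by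
  induction k with
  | zero => rw [Nat.cast_zero]; exact (S 0).zero_mem
  | succ k ih =>
    rw [Nat.cast_succ]
    exact (S 0).add_mem ih hS.one

theorem neg_one_pow_mem (hS : Filt S) (k : ℕ) : ((-1 : A)) ^ k ∈ S 0 := by
  rcases neg_one_pow_eq_or A k with h | h
  · rw [h]; exact hS.one
  · rw [h]; exact (S 0).neg_mem hS.one

theorem r_eq (F : FD n A) (hE : F.E.IsHomogeneous (F.p * F.D)) (a : Fin (n + 1) →₀ ℕ) (m t : ℕ)
    (ha : a.degree + (n + 1) = F.D * m) (ht : m ≤ F.p * t) :
    F.r (F.p * t - m) t (monomial a 1) = cls F.P' (∑ j ∈ range F.J, ((-1) ^ j * F.γ j) •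
      psi F.p (monomial a 1 * F.P ^ (F.p * t - m) * F.E ^ j)) := by
  rw [map_sum]
  unfold FD.r rho
  refine sum_congr rfl fun j _ => ?_
  rw [map_smul, tau_apply, lev_of_wt (term_wt ha ht F.hP hE 1)]

theorem part1 (F : FD n A) (hD : 0 < F.D) (hE : F.E.IsHomogeneous (F.p * F.D)) (g : Poly n A) :
    F.psi0 g = cls F.P' (rho0 F.p F.D F.J F.γ F.P F.E g) := by
  classical
  induction g using MvPolynomial.induction_on' with
  | add g1 g2 h1 h2 => rw [map_add, map_add, map_add, h1, h2]
  | monomial a s =>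
    by_cases h : F.D ∣ a.degree + (n + 1)
    · rw [FD.psi0, linMon_monomial, if_pos h, rho0_monomial, if_pos h, map_smul, map_smul]
      obtain ⟨m, hm⟩ := h
      have e : (a.degree + (n + 1)) / F.D = m := by
        rw [hm, Nat.mul_div_cancel_left _ hD]
      rw [e, ← r_eq F hE a m ((m + F.p - 1) / F.p) hm (t_spec F.hp)]
      rfl
    · rw [FD.psi0, linMon_monomial, if_neg h, rho0_monomial, if_neg h, smul_zero, smul_zero,
        map_zero]

theorem map_smul' {B : Type} [CommRing B] (f : A →+* B) (c : A) (g : Poly n A) :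
    map f (c • g) = f c • map f g := by
  ext b
  rw [coeff_map, coeff_smul, coeff_smul, coeff_map, smul_eq_mul, smul_eq_mul, map_mul]

theorem psi_zero_left (a : Fin (n + 1) →₀ ℕ) (s : A) :
    psi 0 (monomial a s : Poly n A) = 0 := by
  rw [psi_monomial, if_neg]
  intro h
  have := h 0
  rw [zero_dvd_iff] at this
  omega

theorem map_psi' {B : Type} [CommRing B] (f : A →+* B) (p : ℕ) (g : Poly n A) :
    map f (psi p g) = psi p (map f g) := by
  rcases Nat.eq_zero_or_pos p with rfl | hp
  · induction g using MvPolynomial.induction_on' with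
    | add g1 g2 h1 h2 => rw [map_add, map_add, map_add, map_add, h1, h2]
    | monomial a s => rw [psi_zero_left, map_monomial, psi_zero_left, map_zero]
  · exact map_psi f hp g

theorem part2 {B : Type} [CommRing B] (f : A →+* B) (p D J : ℕ) (γ : ℕ → A) (P E g : Poly n A) :
    map f (rho0 p D J γ P E g) =
      rho0 p D J (fun j => f (γ j)) (map f P) (map f E) (map f g) := by
  induction g using MvPolynomial.induction_on' with
  | add g1 g2 h1 h2 => rw [map_add, map_add, map_add, map_add, h1, h2]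
  | monomial a s =>
    rw [map_monomial, rho0_monomial, rho0_monomial, map_smul']
    congr 1
    split_ifs
    · rw [map_smul', map_natCast, map_sum]
      congr 1
      refine sum_congr rfl fun j _ => ?_
      have e1 : f ((-1) ^ j * γ j) = (-1) ^ j * f (γ j) := by
        rw [map_mul f, map_pow f, map_neg f, map_one f]
      have e2 : ∀ k, map f (monomial a 1 * P ^ k * E ^ j) =
          monomial a 1 * (map f P) ^ k * (map f E) ^ j := by
        intro k
        rw [RingHom.map_mul, RingHom.map_mul, map_pow, map_pow, map_monomial, map_one f]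
      rw [map_smul', map_psi', e1, e2]
    · rw [map_zero]

theorem part3 (p D J : ℕ) (γ : ℕ → A) (P E : Poly n A) (hp : 2 ≤ p) (hD : 0 < D)
    (hP : P.IsHomogeneous D) (hE : E.IsHomogeneous (p * D)) (g : Poly n A) :
    WtD D (rho0 p D J γ P E g) := by
  induction g using MvPolynomial.induction_on' with
  | add g1 g2 h1 h2 => rw [map_add]; exact wtD_add h1 h2
  | monomial a s =>
    rw [rho0_monomial]
    refine wtD_smul _ ?_
    split_ifs with h
    · refine wtD_smul _ (wtD_sum _ _ fun j _ => wtD_smul _ ?_)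
      obtain ⟨m, hm⟩ := h
      have e : (a.degree + (n + 1)) / D = m := by
        rw [hm, Nat.mul_div_cancel_left _ hD]
      rw [e]
      exact wtD_of_wt (wt_psi (by omega) (term_wt hm (t_spec hp) hP hE 1))
    · exact wtD_zero D

theorem part4 (S : ℕ → AddSubgroup A) (p D J m k : ℕ) (γ : ℕ → A)
    (P E g : Poly n A) (hp : 2 ≤ p) (hD : 0 < D) (hP : P.IsHomogeneous D)
    (hE : E.IsHomogeneous (p * D)) (hS : Filt S) (hγ : ∀ j, j < J → γ j ∈ S 0)
    (hPS : CoefIn (S 1) P) (hES : CoefIn (S p) E) (hm : 1 ≤ m) (hmp : m ≤ p)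
    (hg : Wt (D * m) g) (hgS : CoefIn (S k) g) :
    CoefIn (S (k + p * (J + 1))) (rho0 p D J γ P E g) ∧
      ∀ a, coeff a (rho0 p D J γ P E g) ≠ 0 →
        ∃ t, 1 ≤ t ∧ t ≤ J ∧ a.degree + (n + 1) = D * t := by
  classical
  have ht : (m + p - 1) / p = 1 := by
    have h1 := t_pos (m := m) hp hm
    have h2 : (m + p - 1) / p < 2 := by
      rw [Nat.div_lt_iff_lt_mul (by omega)]; omega
    omega
  have hterm : ∀ a : Fin (n + 1) →₀ ℕ, a.degree + (n + 1) = D * m → ∀ s : A, s ∈ S k →
      CoefIn (S (k + p * (J + 1))) (rho0 p D J γ P E (monomial a s)) ∧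
      ∀ b, coeff b (rho0 p D J γ P E (monomial a s)) ≠ 0 →
        ∃ t, 1 ≤ t ∧ t ≤ J ∧ b.degree + (n + 1) = D * t := by
    intro a ha s hs
    have e : (a.degree + (n + 1)) / D = m := by
      rw [ha, Nat.mul_div_cancel_left _ hD]
    rw [rho0_monomial, if_pos ⟨m, ha⟩, e, ht]
    constructor
    · refine coefIn_smul hS hs ?_
      have e0 : p * (J + 1) = 0 + p * (J + 1) := (Nat.zero_add _).symm
      rw [e0]
      refine coefIn_smul hS (natCast_mem hS _) (coefIn_sum _ _ fun j hj => ?_)
      rw [e0]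
      have hj' := mem_range.1 hj
      have hc : ((-1) ^ j * γ j : A) ∈ S 0 := hS.mul 0 0 _ _ (neg_one_pow_mem hS j) (hγ j hj')
      refine coefIn_smul hS hc (coefIn_psi (by omega) ?_)
      have h1 := coefIn_mul hS (coefIn_mul hS (coefIn_monomial hS a)
        (coefIn_pow hS hPS (p * 1 - m))) (coefIn_pow hS hES j)
      refine coefIn_mono (hS.mono _ _ ?_) h1
      have h2 : j * p ≤ J * p := Nat.mul_le_mul_right p hj'.le
      have h3 : p * (J + 1) = J * p + p := by ring
      rw [h3, mul_one]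
      omega
    · intro b hb
      rw [coeff_smul, smul_eq_mul] at hb
      have hb := right_ne_zero_of_mul hb
      rw [coeff_smul, smul_eq_mul] at hb
      have hb := right_ne_zero_of_mul hb
      rw [coeff_sum] at hb
      obtain ⟨j, hj, hj0⟩ := Finset.exists_ne_zero_of_sum_ne_zero hb
      rw [coeff_smul, smul_eq_mul] at hj0
      have hb := right_ne_zero_of_mul hj0
      have hj' := mem_range.1 hj
      have hw : Wt (D * (1 + j)) (psi p (monomial a 1 * P ^ (p * 1 - m) * E ^ j)) :=
        wt_psi (by omega) (term_wt ha (by omega) hP hE 1)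
      exact ⟨1 + j, by omega, by omega, hw b hb⟩
  have hsum : rho0 p D J γ P E g =
      ∑ a ∈ g.support, rho0 p D J γ P E (monomial a (coeff a g)) := by
    conv_lhs => rw [g.as_sum]
    rw [map_sum]
  constructor
  · rw [hsum]
    refine coefIn_sum _ _ fun a ha => ?_
    exact (hterm a (hg a (mem_support_iff.1 ha)) _ (hgS a)).1
  · intro b hb
    rw [hsum, coeff_sum] at hb
    obtain ⟨a, ha, ha0⟩ := Finset.exists_ne_zero_of_sum_ne_zero hb
    exact (hterm a (hg a (mem_support_iff.1 ha)) _ (hgS a)).2 b ha0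

end

end RHB

theorem RHB_proof : RHBStmt :=
  ⟨fun _ _ _ F hD hE g => RHB.part1 F hD hE g,
   fun _ _ _ _ _ f p D J γ P E g => RHB.part2 f p D J γ P E g,
   fun _ _ _ p D J γ P E hp hD hP hE g => RHB.part3 p D J γ P E hp hD hP hE g,
   fun _ _ _ S p D J m k γ P E g hp hD hP hE hS hγ hPS hES hm hmp hg hgS =>
    RHB.part4 S p D J m k γ P E g hp hD hP hE hS hγ hPS hES hm hmp hg hgS⟩

end Pool.CUBE
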